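import Pool.Agent.MP_187b32_an.M6.Phys
import Pool.Agent.MP_187b32_an.Spec.Bg
import Pool.Agent.MP_187b32_an.Coll.Nice

/-! Module M6a: from the rescaled solution to the physical statement. -/

set_option autoImplicit false

open MeasureTheory Set Filter Topology Pool.Agent.Boltz
open scoped ContDiff

noncomputable section

namespace Pool.Agent.MP_187b32_an.M6

open Stmt

/-- the link between the two representations of the collision operator -/
def SigmaStmt : Prop :=
  ∃ p : ℕ, ∀ (G : E3 → ℝ) (K : ℝ), Coll.Nice p K G → ∀ V,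
    Integrable (collInt B8 (fun v => sqM v * G v) V) collMeas ∧
      Q B8 (fun v => sqM v * G v) V = sqM V * Coll.Gam G G V

theorem clm_eq_sum (L : E3 →L[ℝ] ℝ) (z : E3) : L z = ∑ i, z i * L (ev i) := by
  conv_lhs => rw [← sum_coord_ev z]
  simp

theorem fderiv_two {a : ℝ → E3 → ℝ} (ha : Differentiable ℝ fun p : ℝ × E3 => a p.1 p.2)
    (s τ : ℝ) (x z : E3) : fderiv ℝ (fun p : ℝ × E3 => a p.1 p.2) (s, x) (τ, z) =
      τ * dS a s x + ∑ i, z i * dX i (a s) x := by
  have h := (ha (s, x)).hasFDerivAt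
  set L := fderiv ℝ (fun p : ℝ × E3 => a p.1 p.2) (s, x)
  have h1 : HasDerivAt (fun t => a t x) (L (1, 0)) s :=
    h.comp_hasDerivAt (f := fun t => (t, x)) s ((hasDerivAt_id s).prodMk (hasDerivAt_const s x))
  have h2 : HasFDerivAt (a s) (L.comp (ContinuousLinearMap.inr ℝ ℝ E3)) x :=
    h.comp x (hasFDerivAt_prodMk_right s x)
  have h3 : ∀ i, dX i (a s) x = (L.comp (ContinuousLinearMap.inr ℝ ℝ E3)) (ev i) := fun i =>
    dX_eq (HasDerivAt.hd (h2.hasLineDerivAt (ev i)))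
  simp only [h3]
  rw [dS, h1.deriv, ← clm_eq_sum, ← smul_eq_mul, ← map_smul, ContinuousLinearMap.comp_apply,
    ← map_add]
  simp

theorem fderiv_three {g : ℝ → E3 → E3 → ℝ}
    (hg : Differentiable ℝ fun q : ℝ × E3 × E3 => g q.1 q.2.1 q.2.2) (s τ : ℝ) (x V z w : E3) :
    fderiv ℝ (fun q : ℝ × E3 × E3 => g q.1 q.2.1 q.2.2) (s, x, V) (τ, z, w) =
      τ * deriv (fun t => g t x V) s + ∑ i, z i * fderiv ℝ (fun y => g s y V) x (ev i) +
        ∑ j, w j * fderiv ℝ (g s x) V (ev j) := by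
  have h := (hg (s, x, V)).hasFDerivAt
  set L := fderiv ℝ (fun q : ℝ × E3 × E3 => g q.1 q.2.1 q.2.2) (s, x, V)
  have h1 : HasDerivAt (fun t => g t x V) (L (1, 0)) s :=
    h.comp_hasDerivAt (f := fun t => (t, x, V)) s
      ((hasDerivAt_id s).prodMk (hasDerivAt_const s (x, V)))
  have h2 : HasFDerivAt (fun y => g s y V) _ x :=
    h.comp (f := fun y => (s, y, V)) x
      ((hasFDerivAt_const s x).prodMk (hasFDerivAt_prodMk_left x V))
  have h3 : HasFDerivAt (g s x) _ V :=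
    h.comp (f := fun W => (s, x, W)) V
      ((hasFDerivAt_const s V).prodMk (hasFDerivAt_prodMk_right x V))
  rw [h1.deriv, h2.fderiv, h3.fderiv, ← clm_eq_sum, ← clm_eq_sum, ← smul_eq_mul, ← map_smul,
    ContinuousLinearMap.comp_apply, ContinuousLinearMap.comp_apply, ← map_add, ← map_add]
  simp

/-- the physical velocity as a vector field -/
def uV (B : BgD) (p : ℝ × E3) : E3 := WithLp.toLp 2 fun i => B.u i p.1 p.2

theorem contDiff_uV {B : BgD} (hB : B.Ok) : ContDiff ℝ ∞ (uV B) :=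
  contDiff_euclidean.2 hB.cd_u

theorem fderiv_uV {B : BgD} (hB : B.Ok) (p z : ℝ × E3) (j : Fin 3) :
    fderiv ℝ (uV B) p z j = fderiv ℝ (fun p : ℝ × E3 => B.u j p.1 p.2) p z := by
  have h := ((contDiff_uV hB).differentiable (by simp) p).hasFDerivAt
  have h1 : HasFDerivAt (fun p : ℝ × E3 => B.u j p.1 p.2) _ p :=
    (EuclideanSpace.proj j : E3 →L[ℝ] ℝ).hasFDerivAt.comp p h
  rw [h1.fderiv]
  rfl

theorem far_bound {B : BgD} (hB : B.Ok) {ρ : ℝ} (hρ : 0 < ρ) : ∃ M, ∀ s, 0 ≤ s → ∀ x,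
    (∀ n, ρ ≤ ‖x + lat n‖) → ‖uV B (s, x)‖ + B.C s x ≤ M := by
  obtain ⟨K, hK⟩ := hB.sym
  refine ⟨4 * (|K 0| * √(ρ ^ 2 / 12) ^ (1 - B.r)), fun s hs x hx => ?_⟩
  have h1 : √(ρ ^ 2 / 12) ≤ B.Lam s x := by
    refine Real.sqrt_le_sqrt ?_
    obtain ⟨n, hn⟩ := exists_lattice_mem_cube (WithLp.toLp 2 fun _ => -1 / 2) x
    have e : ∑ i, (n i : ℝ) • ev i = lat n := by
      conv_rhs => rw [← sum_coord_ev (lat n)]
      rfl
    rw [e] at hn
    have h2 := B.cut.rho2_ge (x + lat n) fun i => by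
      have := hn i
      simp only [mem_Ioc] at this
      rw [abs_le]
      constructor <;> linarith [this.1, this.2]
    rw [per_lat B.cut.per_rho2] at h2
    have h3 : ρ ^ 2 ≤ ‖x + lat n‖ ^ 2 := pow_le_pow_left₀ hρ.le (hx n) 2
    linarith [Real.exp_pos (-2 * s)]
  have h0 : 0 < √(ρ ^ 2 / 12) := Real.sqrt_pos.2 (by positivity)
  have h2 : K 0 * B.Lam s x ^ (1 - B.r) ≤ |K 0| * √(ρ ^ 2 / 12) ^ (1 - B.r) :=
    mul_le_mul (le_abs_self _) (Real.rpow_le_rpow_of_nonpos h0 h1 (by linarith [hB.r_gt]))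
      (Real.rpow_nonneg (h0.le.trans h1) _) (abs_nonneg _)
  have h3 : ∀ i, |B.u i s x| ≤ K 0 * B.Lam s x ^ (1 - B.r) := fun i => by
    simpa [dXw] using (hK s hs).1 i [] le_rfl x
  have h4 : |B.C s x| ≤ K 0 * B.Lam s x ^ (1 - B.r) := by
    simpa [dXw] using (hK s hs).2.1 [] le_rfl x
  have h5 := norm_le_sum_abs (uV B (s, x))
  rw [Fin.sum_univ_three] at h5
  have h6 := h3 0
  have h7 := h3 1
  have h8 := h3 2
  change _ ≤ |B.u 0 s x| + |B.u 1 s x| + |B.u 2 s x| at h5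
  linarith [le_abs_self (B.C s x)]

theorem top_C {B : BgD} (hB : B.Ok) : Tendsto (fun s => B.C s 0) atTop atTop := by
  obtain ⟨c0, hc0, h⟩ := hB.C_ge
  have h1 : ∀ s, B.Lam s 0 ^ (1 - B.r) = Real.exp ((B.r - 1) * s) := fun s => by
    rw [BgD.Lam, B.cut.rho2_eq 0 fun i => by simp, norm_zero, zero_pow two_ne_zero, add_zero,
      Real.sqrt_eq_rpow, ← Real.exp_mul, ← Real.exp_mul]
    congr 1
    ring
  refine tendsto_atTop_mono' _ ((eventually_ge_atTop 0).mono fun s hs => h s hs 0) ?_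
  simp only [h1]
  exact (Real.tendsto_exp_atTop.comp
    (tendsto_id.const_mul_atTop (by linarith [hB.r_gt]))).const_mul_atTop hc0

theorem phys_of (hσ : SigmaStmt) : ∃ (ε m : ℝ) (p : ℕ), 0 < ε ∧ ∀ (B : BgD), B.Ok →
    ∀ (A s0 : ℝ) (g : ℝ → E3 → E3 → ℝ), 0 < A → 0 ≤ s0 →
    Lim B.fld (fun s x => A * B.k1 s x) s0 ε p g → (∀ s, s0 ≤ s → ∀ x V, 0 ≤ sqM V + g s x V) →
    Phys B.r s0 A (1 + ε) m (uV B) (fun q => B.C q.1 q.2)
      (fun q => sqM q.2.2 * (sqM q.2.2 + g q.1 q.2.1 q.2.2))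
      (fderiv ℝ fun q : ℝ × E3 × E3 => sqM q.2.2 * (sqM q.2.2 + g q.1 q.2.1 q.2.2)) := by
  obtain ⟨p, hσ⟩ := hσ
  obtain ⟨ε, hε, m, hm, hlow⟩ := exists_mass_lower
  refine ⟨ε, m, p, hε, fun B hB A s0 g hA hs0 hg hpos => ?_⟩
  have hg1 := hg.c1.differentiable one_ne_zero
  have hM : ContDiff ℝ ∞ fun q : ℝ × E3 × E3 => sqM q.2.2 := contDiff_sqM.comp (by fun_prop)
  have hH : ContDiff ℝ 1 fun q : ℝ × E3 × E3 => sqM q.2.2 * (sqM q.2.2 + g q.1 q.2.1 q.2.2) :=
    (hM.of_le (by simp)).mul ((hM.of_le (by simp)).add hg.c1)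
  have hN : ∀ s, s0 ≤ s → ∀ x, Coll.Nice p _ fun W => sqM W + g s x W := fun s hs x =>
    (Coll.nice_sM p).add (hg.nice s hs x)
  refine
    { hr := by linarith [hB.r_gt]
      hA := hA
      hm := hm
      cu := (contDiff_uV hB).of_le (by simp)
      cc := hB.cd_C.of_le (by simp)
      cu0 := (contDiff_uV hB).comp (contDiff_prodMk_right s0)
      cc0 := hB.cd_C.comp (contDiff_prodMk_right s0)
      cH0 := (contDiff_sqM.comp contDiff_snd).mul
        ((contDiff_sqM.comp contDiff_snd).add hg.init_smooth)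
      pu := fun s i x => by simp only [uV, hB.per_u _ s i x]
      pc := hB.per_C
      pH := fun s _ i x => by simp only [hg.per s _ i x]
      cpos := fun q => hB.C_pos _ _
      top := top_C hB
      far := fun ρ hρ => (far_bound hB hρ).imp fun M hM s hs => hM s (hs0.trans hs)
      hd := fun q _ => (hH.differentiable one_ne_zero q).hasFDerivAt.hasFDerivWithinAt
      cd := (hH.continuous_fderiv one_ne_zero).continuousOn
      nonneg := fun s hs x V => mul_nonneg (sqM_pos V).le (hpos s hs x V)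
      le := fun s hs x V => ?_
      low := fun s hs x => hlow _ (hN s hs x).continuous fun V => by
        simpa using (hg.nice s hs x).abs_le V
      int := fun s hs x V => (hσ _ _ (hN s hs x) V).1
      eqn := fun s hs x V => ?_ }
  · rw [mul_comm]
    refine mul_le_mul_of_nonneg_right ?_ (sqM_pos V).le
    linarith [sqM_le_one V, (abs_le.1 ((hg.nice s hs x).abs_le V)).2]
  · have hgV : HasFDerivAt (g s x) (fderiv ℝ (g s x) V) V :=
      (hg1.comp (f := fun W => (s, x, W)) (by fun_prop) V).hasFDerivAt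
    have hgx : HasFDerivAt (fun y => g s y V) (fderiv ℝ (fun y => g s y V) x) x :=
      (hg1.comp (f := fun y => (s, y, V)) (by fun_prop) x).hasFDerivAt
    have hgs : HasDerivAt (fun t => g t x V) (deriv (fun t => g t x V) s) s :=
      (hg1.comp (f := fun t => (t, x, V)) (by fun_prop) s).hasDerivAt
    have hG := (hasFDerivAt_sqM V).fun_add hgV
    have he := hg.eqn s hs x V
    rw [fderiv_three (g := fun s x V => sqM V * (sqM V + g s x V)) (hH.differentiable one_ne_zero),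
      (hσ _ _ (hN s hs x) V).2, ((hgs.const_add (sqM V)).const_mul (sqM V)).deriv,
      ((hgx.const_add (sqM V)).const_mul (sqM V)).fderiv, ((hasFDerivAt_sqM V).fun_mul hG).fderiv]
    rw [hG.fderiv] at he
    have hC := (hB.C_pos s x).ne'
    have hE : Real.exp (-B.r * s) = (Real.exp (B.r * s))⁻¹ := by rw [neg_mul, Real.exp_neg]
    have hE0 := (Real.exp_pos (B.r * s)).ne'
    simp only [PiLp.neg_apply, PiLp.smul_apply, PiLp.add_apply, fderiv_uV hB,
      fderiv_two ((hB.cd_u _).differentiable (by simp)), fderiv_two (hB.cd_C.differentiable (by simp)),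
      smul_eq_mul, add_apply, smul_apply, innerSL_apply_apply, inner_ev, uV]
    simp only [BgD.fld, Fld.bj, BgD.mat, BgD.k1, hE, add_apply, smul_apply, innerSL_apply_apply,
      inner_ev, smul_eq_mul, Fin.sum_univ_three] at he ⊢
    simp only [Fin.isValue, Fin.reduceEq, if_true, if_false] at he
    field_simp at he ⊢
    linear_combination sqM V * he

theorem final_of (hσ : SigmaStmt) : FinalStmt := by
  obtain ⟨ε, m, p, hε, h⟩ := phys_of hσ
  exact ⟨ε, p, hε, fun B hB A s0 g hA hs0 hg hpos => (h B hB A s0 g hA hs0 hg hpos).main⟩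

end Pool.Agent.MP_187b32_an.M6
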