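import Pool.Agent.MP_187b32_an.M6.Scale
import Pool.Agent.MP_187b32_an.Calc.Torus

/-! From the rescaled unknown `H(s, x, V)` to the physical solution `f(t, x, v)`. -/

set_option autoImplicit false

open MeasureTheory Set Filter Topology Pool.Agent.Boltz
open scoped ContDiff

noncomputable section

namespace Pool.Agent.MP_187b32_an.M6

open Stmt

/-- blow-up time -/
def Tb (r s0 : ℝ) : ℝ := Real.exp (-(r * s0)) / r

/-- self-similar time as a function of the physical time -/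
def sOf (r s0 t : ℝ) : ℝ := -Real.log (r * (Tb r s0 - t)) / r

section Time

variable {r s0 : ℝ}

theorem Tb_pos (hr : 0 < r) : 0 < Tb r s0 := div_pos (Real.exp_pos _) hr

theorem sOf_zero (hr : 0 < r) : sOf r s0 0 = s0 := by
  rw [sOf, Tb, sub_zero, mul_div_cancel₀ _ hr.ne', Real.log_exp]
  field_simp

theorem sOf_mono (hr : 0 < r) {t t' : ℝ} (h : t ≤ t') (h' : t' < Tb r s0) :
    sOf r s0 t ≤ sOf r s0 t' := by
  refine div_le_div_of_nonneg_right (neg_le_neg (Real.log_le_log (mul_pos hr (sub_pos.2 h')) ?_))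
    hr.le
  gcongr

theorem le_sOf (hr : 0 < r) {t : ℝ} (ht : t ∈ Ico 0 (Tb r s0)) : s0 ≤ sOf r s0 t := by
  have := sOf_mono hr ht.1 ht.2
  rwa [sOf_zero hr] at this

theorem hasDerivAt_sOf (hr : 0 < r) {t : ℝ} (ht : t < Tb r s0) :
    HasDerivAt (sOf r s0) (Real.exp (r * sOf r s0 t)) t := by
  have h0 : 0 < r * (Tb r s0 - t) := mul_pos hr (sub_pos.2 ht)
  have h1 := ((((hasDerivAt_id t).const_sub (Tb r s0)).const_mul r).log h0.ne').neg.div_const r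
  refine h1.congr_deriv ?_
  rw [sOf, mul_div_cancel₀ _ hr.ne', Real.exp_neg, Real.exp_log h0]
  have := (sub_pos.2 ht).ne'
  simp only [id]
  field_simp

theorem contDiffAt_sOf (hr : 0 < r) {t : ℝ} (ht : t < Tb r s0) : ContDiffAt ℝ 1 (sOf r s0) t := by
  have h0 : 0 < r * (Tb r s0 - t) := mul_pos hr (sub_pos.2 ht)
  exact (((contDiffAt_const.mul (contDiffAt_const.sub contDiffAt_id)).log h0.ne').neg).div_const r

theorem tendsto_sOf (hr : 0 < r) : Tendsto (sOf r s0) (𝓝[<] Tb r s0) atTop := by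
  have h1 : Tendsto (fun t => r * (Tb r s0 - t)) (𝓝[<] Tb r s0) (𝓝[>] 0) := by
    refine tendsto_nhdsWithin_iff.2 ⟨?_, ?_⟩
    · have : Continuous fun t => r * (Tb r s0 - t) := by fun_prop
      simpa using (this.tendsto (Tb r s0)).mono_left nhdsWithin_le_nhds
    · filter_upwards [self_mem_nhdsWithin] with t ht using mul_pos hr (sub_pos.2 ht)
  exact (tendsto_neg_atBot_atTop.comp (Real.tendsto_log_nhdsGT_zero.comp h1)).atTop_div_const hr

end Time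

theorem per_lat {α : Type*} {G : E3 → α} (h : Per G) (n : Fin 3 → ℤ) (x : E3) :
    G (x + lat n) = G x := h.add_of_int n (fun _ => rfl) x

/-- The hypotheses on the physical mean velocity `u`, thermal speed `c` and rescaled density `H`. -/
structure Phys (r s0 A K m : ℝ) (u : ℝ × E3 → E3) (c : ℝ × E3 → ℝ) (H : ℝ × E3 × E3 → ℝ)
    (D : ℝ × E3 × E3 → ℝ × E3 × E3 →L[ℝ] ℝ) : Prop where
  hr : 0 < r
  hA : 0 < A
  hm : 0 < m
  cu : ContDiff ℝ 1 u
  cc : ContDiff ℝ 1 c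
  cu0 : ContDiff ℝ ∞ fun x => u (s0, x)
  cc0 : ContDiff ℝ ∞ fun x => c (s0, x)
  cH0 : ContDiff ℝ ∞ fun p : E3 × E3 => H (s0, p)
  pu : ∀ s, Per fun x => u (s, x)
  pc : ∀ s, Per fun x => c (s, x)
  pH : ∀ s, s0 ≤ s → Per fun x V => H (s, x, V)
  cpos : ∀ p, 0 < c p
  top : Tendsto (fun s => c (s, 0)) atTop atTop
  far : ∀ ρ > (0 : ℝ), ∃ M, ∀ s, s0 ≤ s → ∀ x, (∀ n, ρ ≤ ‖x + lat n‖) → ‖u (s, x)‖ + c (s, x) ≤ M
  hd : ∀ p ∈ Ici s0 ×ˢ univ, HasFDerivWithinAt H (D p) (Ici s0 ×ˢ univ) p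
  cd : ContinuousOn D (Ici s0 ×ˢ univ)
  nonneg : ∀ s, s0 ≤ s → ∀ x V, 0 ≤ H (s, x, V)
  le : ∀ s, s0 ≤ s → ∀ x V, H (s, x, V) ≤ K * sqM V
  low : ∀ s, s0 ≤ s → ∀ x, m ≤ ∫ V, H (s, x, V)
  int : ∀ s, s0 ≤ s → ∀ x V, Integrable (collInt B8 (fun W => H (s, x, W)) V) collMeas
  eqn : ∀ s, s0 ≤ s → ∀ x V,
    D (s, x, V) (Real.exp (r * s), u (s, x) + c (s, x) • V,
      -((c (s, x))⁻¹ • (fderiv ℝ u (s, x) (Real.exp (r * s), u (s, x) + c (s, x) • V) +
        fderiv ℝ c (s, x) (Real.exp (r * s), u (s, x) + c (s, x) • V) • V))) =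
      A * c (s, x) ^ 11 * Q B8 (fun W => H (s, x, W)) V

/-- the density in the variables `(s, x, v)` -/
def Fs (A : ℝ) (u : ℝ × E3 → E3) (c : ℝ × E3 → ℝ) (H : ℝ × E3 × E3 → ℝ) (s : ℝ) (x : E3) :
    E3 → ℝ := aff A (c (s, x)) (u (s, x)) fun W => H (s, x, W)

namespace Phys

variable {r s0 A K m : ℝ} {u : ℝ × E3 → E3} {c : ℝ × E3 → ℝ} {H : ℝ × E3 × E3 → ℝ}
  {D : ℝ × E3 × E3 → ℝ × E3 × E3 →L[ℝ] ℝ} (h : Phys r s0 A K m u c H D)

include h

theorem contH {s : ℝ} (hs : s0 ≤ s) (x : E3) : Continuous fun W => H (s, x, W) := by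
  have h1 : ContinuousOn H (Ici s0 ×ˢ univ) := fun p hp => (h.hd p hp).continuousWithinAt
  exact h1.comp_continuous (by fun_prop) fun W => ⟨hs, trivial⟩

theorem K_nonneg : 0 ≤ K :=
  nonneg_of_mul_nonneg_left ((h.nonneg s0 le_rfl 0 0).trans (h.le s0 le_rfl 0 0)) (sqM_pos 0)

theorem bound (S : ℝ) : ∃ M, ∀ s ∈ Icc s0 S, ∀ x, ‖u (s, x)‖ + c (s, x) ≤ M := by
  obtain ⟨M, -, hM⟩ := exists_bound_of_per (ψ := fun s x => ‖u (s, x)‖ + c (s, x))
    (h.cu.continuous.norm.add h.cc.continuous)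
    (fun s => (h.pu s).map₂ (h.pc s) fun a b => ‖a‖ + b) (isCompact_Icc (a := s0) (b := S))
  exact ⟨M, fun s hs x => (le_abs_self _).trans (hM s hs x)⟩

theorem per {s : ℝ} (hs : s0 ≤ s) (n : Fin 3 → ℤ) (x : E3) :
    Fs A u c H s (x + lat n) = Fs A u c H s x := by
  have h1 := per_lat (h.pu s) n x
  have h2 := per_lat (h.pc s) n x
  have h3 := per_lat (h.pH s hs) n x
  rw [Fs, Fs, h1, h2, h3]

theorem upper {s : ℝ} (hs : s0 ≤ s) {x : E3} {M : ℝ} (hM : ‖u (s, x)‖ + c (s, x) ≤ M) :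
    mass (Fs A u c H s x) ≤ A * M ^ 3 * (K * I2) ∧
      energy (Fs A u c H s x) ≤ A * M ^ 3 * M ^ 2 * (K * I2) := by
  have hc := h.cpos (s, x)
  have hA := h.hA
  have hK := mul_nonneg h.K_nonneg I2_nonneg
  have h1 : c (s, x) ≤ M := le_trans (by simp) hM
  constructor
  · refine (mass_aff_le hc hA.le (h.contH hs x) (h.nonneg s hs x) (h.le s hs x)).trans ?_
    gcongr
  · refine (energy_aff_le hc hA.le (h.nonneg s hs x) (h.le s hs x)).trans ?_
    have := hc.le.trans h1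
    gcongr

theorem lower {s : ℝ} (hs : s0 ≤ s) (x : E3) : A * c (s, x) ^ 3 * m ≤ mass (Fs A u c H s x) := by
  have hc := h.cpos (s, x)
  have hA := h.hA
  rw [Fs, mass_aff hc]
  exact mul_le_mul_of_nonneg_left (h.low s hs x) (by positivity)

theorem decay (S q : ℝ) : ∃ C, ∀ s ∈ Icc s0 S, ∀ x v,
    Fs A u c H s x v ≤ C * √(1 + ‖v‖ ^ 2) ^ (-q) := by
  obtain ⟨M, hM⟩ := h.bound S
  exact ⟨_, fun s hs x v => aff_decay (h.cpos _) h.hA.le (h.nonneg s hs.1 x) (h.le s hs.1 x)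
    (hM s hs x) q v⟩

theorem admissible : Admissible (Fs A u c H s0) where
  smooth := by
    have h1 : ContDiff ℝ ∞ fun p : E3 × E3 => (c (s0, p.1))⁻¹ • (p.2 - u (s0, p.1)) :=
      ((h.cc0.comp contDiff_fst).inv fun p => (h.cpos _).ne').smul
        (contDiff_snd.sub (h.cu0.comp contDiff_fst))
    exact contDiff_const.mul (h.cH0.comp (contDiff_fst.prodMk h1))
  periodic := h.per le_rfl
  nonneg := fun x => aff_nonneg h.hA.le (h.nonneg s0 le_rfl x)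
  decay := fun q _ => by
    obtain ⟨C, hC⟩ := h.decay s0 q
    exact ⟨C, hC s0 ⟨le_rfl, le_rfl⟩⟩
  hydro := by
    obtain ⟨M, hM⟩ := h.bound s0
    obtain ⟨c0, hc0, hc⟩ := exists_lower_bound_of_per (ψ := fun s x => c (s, x)) h.cc.continuous
      h.pc (isCompact_singleton (x := s0)) fun _ _ _ => h.cpos _
    have hA := h.hA
    have hm := h.hm
    refine ⟨A * c0 ^ 3 * m, A * M ^ 3 * (K * I2), A * M ^ 3 * M ^ 2 * (K * I2),
      A * K * (A * M ^ 3 * (K * I2)), by positivity, fun x => ?_⟩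
    have h1 := h.upper le_rfl (hM s0 ⟨le_rfl, le_rfl⟩ x)
    refine ⟨le_trans ?_ (h.lower le_rfl x), h1.1, h1.2, integrable_aff_log (h.cpos _) hA.le
      (h.contH le_rfl x) (h.nonneg s0 le_rfl x) (h.le s0 le_rfl x), ?_⟩
    · have := hc s0 rfl x
      gcongr
    · exact (entropy_aff_le (h.cpos _) hA.le (h.contH le_rfl x) (h.nonneg s0 le_rfl x)
        (h.le s0 le_rfl x)).trans (mul_le_mul_of_nonneg_left h1.1 (mul_nonneg hA.le h.K_nonneg))

theorem implosion : Implosion (Tb r s0) (fun t => Fs A u c H (sOf r s0 t)) 0 := by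
  have hev : ∀ᶠ t in 𝓝[<] Tb r s0, s0 ≤ sOf r s0 t := (tendsto_sOf h.hr).eventually_ge_atTop s0
  have h1 : Tendsto (fun t => mass (Fs A u c H (sOf r s0 t) 0)) (𝓝[<] Tb r s0) atTop := by
    refine tendsto_atTop_mono' _ (hev.mono fun t ht => h.lower ht 0) ?_
    exact (((tendsto_pow_atTop three_ne_zero).comp (h.top.comp (tendsto_sOf h.hr))).const_mul_atTop
      h.hA).atTop_mul_const h.hm
  refine ⟨h1, ?_, fun U hU => ?_⟩
  · refine tendsto_atTop_mono' _ (hev.mono fun t ht => energy_aff_ge (h.cpos _) h.hA.le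
      (h.contH ht 0) (h.nonneg _ ht 0) (h.le _ ht 0)) ?_
    exact tendsto_atTop_add_const_right _ (-(A * K * volB)) h1
  · obtain ⟨ρ, hρ, hU⟩ := Metric.mem_nhds_iff.1 hU
    obtain ⟨M, hM⟩ := h.far ρ hρ
    refine ⟨max (A * M ^ 3 * (K * I2)) (A * M ^ 3 * M ^ 2 * (K * I2)), fun t ht x hx => ?_⟩
    have h2 := h.upper (le_sOf h.hr ht) (hM _ (le_sOf h.hr ht) x fun n => by
      by_contra hlt
      exact hx n (hU (by simpa using hlt)))
    exact ⟨h2.1.trans (le_max_left _ _), h2.2.trans (le_max_right _ _)⟩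

theorem c1 : ContDiffOn ℝ 1 (fun p : ℝ × E3 × E3 => Fs A u c H (sOf r s0 p.1) p.2.1 p.2.2)
    (Ico 0 (Tb r s0) ×ˢ univ) := by
  have hH : ContDiffOn ℝ 1 H (Ici s0 ×ˢ univ) := by
    have hu : UniqueDiffOn ℝ (Ici s0 ×ˢ (univ : Set (E3 × E3))) :=
      (uniqueDiffOn_Ici s0).prod uniqueDiffOn_univ
    rw [show (1 : WithTop ℕ∞) = 0 + 1 by simp,
      contDiffOn_succ_iff_hasFDerivWithinAt_of_uniqueDiffOn hu]
    exact ⟨by simp, D, contDiffOn_zero.2 h.cd, h.hd⟩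
  have h1 : ContDiffOn ℝ 1 (fun p : ℝ × E3 × E3 => sOf r s0 p.1) (Ico 0 (Tb r s0) ×ˢ univ) :=
    fun p hp => ((contDiffAt_sOf h.hr hp.1.2).comp p contDiffAt_fst).contDiffWithinAt
  have h2 : ContDiffOn ℝ 1 (fun p : ℝ × E3 × E3 => (sOf r s0 p.1, p.2.1))
      (Ico 0 (Tb r s0) ×ˢ univ) := h1.prodMk (by fun_prop)
  have h3 : ContDiffOn ℝ 1 (fun p : ℝ × E3 × E3 =>
      (c (sOf r s0 p.1, p.2.1))⁻¹ • (p.2.2 - u (sOf r s0 p.1, p.2.1))) (Ico 0 (Tb r s0) ×ˢ univ) :=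
    ((h.cc.comp_contDiffOn h2).inv fun p _ => (h.cpos _).ne').smul
      (ContDiffOn.sub (by fun_prop) (h.cu.comp_contDiffOn h2))
  exact contDiffOn_const.mul (hH.comp (h1.prodMk (ContDiffOn.prodMk (by fun_prop) h3))
    fun p hp => ⟨le_sOf h.hr hp.1, trivial⟩)

theorem eqn' {t : ℝ} (ht : t ∈ Ico 0 (Tb r s0)) (x v : E3) :
    derivWithin (fun τ => Fs A u c H (sOf r s0 τ) x v) (Ico 0 (Tb r s0)) t +
      fderiv ℝ (fun y => Fs A u c H (sOf r s0 t) y v) x v = Q B8 (Fs A u c H (sOf r s0 t) x) v := by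
  have hs := le_sOf h.hr ht
  set s := sOf r s0 t with hsdef
  have hc := h.cpos (s, x)
  obtain ⟨V, rfl⟩ : ∃ V, v = u (s, x) + c (s, x) • V :=
    ⟨(c (s, x))⁻¹ • (v - u (s, x)), by simp [smul_smul, hc.ne']⟩
  set v := u (s, x) + c (s, x) • V with hv
  have hV : (c (s, x))⁻¹ • (v - u (s, x)) = V := by simp [hv, smul_smul, hc.ne']
  have du := (h.cu.differentiable one_ne_zero (s, x)).hasFDerivAt
  have dc := (h.cc.differentiable one_ne_zero (s, x)).hasFDerivAt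
  obtain ⟨L, hL, hL'⟩ : ∃ L : ℝ × E3 →L[ℝ] ℝ × E3 × E3,
      HasFDerivAt (fun p : ℝ × E3 => (p.1, p.2, (c p)⁻¹ • (v - u p))) L (s, x) ∧
      ∀ z, L z = (z.1, z.2, -((c (s, x))⁻¹ • (fderiv ℝ u (s, x) z + fderiv ℝ c (s, x) z • V))) := by
    refine ⟨_, hasFDerivAt_fst.prodMk (hasFDerivAt_snd.prodMk
      (((hasDerivAt_inv hc.ne').comp_hasFDerivAt (s, x) dc).smul (du.const_sub v))), fun z => ?_⟩
    have h1 : v - u (s, x) = c (s, x) • V := by simp [hv]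
    simp only [ContinuousLinearMap.prod_apply, ContinuousLinearMap.coe_fst',
      ContinuousLinearMap.coe_snd', add_apply, smul_apply,
      ContinuousLinearMap.smulRight_apply, neg_apply, Function.comp_apply, h1,
      smul_eq_mul, smul_smul]
    congr 2
    rw [show -(c (s, x) ^ 2)⁻¹ * fderiv ℝ c (s, x) z * c (s, x) =
      -((c (s, x))⁻¹ * fderiv ℝ c (s, x) z) by field_simp]
    module
  have hD : HasFDerivWithinAt H (D (s, x, V)) (Ici s0 ×ˢ univ)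
      (s, x, (c (s, x))⁻¹ • (v - u (s, x))) := by
    rw [hV]; exact h.hd _ ⟨hs, trivial⟩
  have hF : HasFDerivWithinAt (fun p : ℝ × E3 => Fs A u c H p.1 p.2 v) (A • (D (s, x, V)).comp L)
      (Ici s0 ×ˢ univ) (s, x) :=
    (HasFDerivWithinAt.comp (f := fun p : ℝ × E3 => (p.1, p.2, (c p)⁻¹ • (v - u p))) (s, x) hD
      hL.hasFDerivWithinAt fun p (hp : p ∈ Ici s0 ×ˢ univ) => mk_mem_prod hp.1 trivial).const_mul A
  have h1 : HasDerivWithinAt (fun τ => Fs A u c H (sOf r s0 τ) x v)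
      ((A • (D (s, x, V)).comp L) (Real.exp (r * s), 0)) (Ico 0 (Tb r s0)) t :=
    hF.comp_hasDerivWithinAt (f := fun τ => (sOf r s0 τ, x)) t ((hasDerivAt_sOf h.hr ht.2).prodMk
      (hasDerivAt_const t x)).hasDerivWithinAt fun τ hτ => mk_mem_prod (le_sOf h.hr hτ) trivial
  have h2 : HasFDerivAt (fun y => Fs A u c H s y v)
      ((A • (D (s, x, V)).comp L).comp (ContinuousLinearMap.inr ℝ ℝ E3)) x :=
    hasFDerivWithinAt_univ.1 (hF.comp x (hasFDerivAt_prodMk_right s x).hasFDerivWithinAt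
      fun y _ => mk_mem_prod hs trivial)
  rw [h1.derivWithin (uniqueDiffOn_Ico 0 _ t ht), h2.fderiv, ContinuousLinearMap.comp_apply,
    ← map_add, Fs, hv, (coll_aff hc _ _ V (h.int s hs x V)).2]
  simp only [ContinuousLinearMap.inr_apply, Prod.mk_add_mk, add_zero, zero_add,
    smul_apply, ContinuousLinearMap.comp_apply, hL', smul_eq_mul]
  rw [h.eqn s hs x V]
  ring

theorem classical : ClassicalSol B8 (Tb r s0) fun t => Fs A u c H (sOf r s0 t) := by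
  refine ⟨h.c1, fun t ht => h.per (le_sOf h.hr ht),
    fun t ht x => aff_nonneg h.hA.le (h.nonneg _ (le_sOf h.hr ht) x), fun T' hT' q _ => ?_,
    fun t ht x v => ?_, fun t ht => h.eqn' ht⟩
  · obtain ⟨C, hC⟩ := h.decay (sOf r s0 T') q
    exact ⟨C, fun t ht => hC _ ⟨le_sOf h.hr ⟨ht.1, ht.2.trans_lt hT'⟩,
      sOf_mono h.hr ht.2 hT'⟩⟩
  · have hc := h.cpos (sOf r s0 t, x)
    obtain ⟨V, rfl⟩ : ∃ V, v = u (sOf r s0 t, x) + c (sOf r s0 t, x) • V :=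
      ⟨(c (sOf r s0 t, x))⁻¹ • (v - u (sOf r s0 t, x)), by simp [smul_smul, hc.ne']⟩
    exact (coll_aff hc _ _ V (h.int _ (le_sOf h.hr ht) x V)).1

theorem admissible' : Admissible (Fs A u c H (sOf r s0 0)) := by
  rw [sOf_zero h.hr]
  exact h.admissible

theorem main : Main :=
  ⟨8, 1 / 4, B8, by norm_num, by norm_num, nonCutoff_B8, Tb r s0,
    fun t => Fs A u c H (sOf r s0 t), 0, Tb_pos h.hr, h.admissible', h.classical, h.implosion⟩

end Phys

end Pool.Agent.MP_187b32_an.M6
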