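import Pool.Agent.MP_187b32_an.Stmt
import Pool.Agent.MP_187b32_an.Herm.Basic

/-! Affine changes of the velocity variable: collision operator, mass, energy, entropy. -/

set_option autoImplicit false

open MeasureTheory Set Filter Topology Pool.Agent.Boltz
open scoped RealInnerProductSpace

noncomputable section

namespace Pool.Agent.MP_187b32_an.M6

open Stmt

theorem nonCutoff_B8 : NonCutoff 8 (1 / 4) B8 := by
  refine ⟨?_, 1, 1, one_pos, fun r hr θ hθ => ?_⟩
  · unfold B8 Function.uncurry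
    fun_prop
  · have h1 : (1 - Real.cos θ) / 2 = |Real.sin (θ / 2)| ^ (2 : ℝ) := by
      rw [Real.rpow_two, sq_abs, Real.sin_sq_eq_half_sub, mul_div_cancel₀ _ (two_ne_zero)]
      ring
    have h2 : B8 r (Real.cos θ) = r ^ (8 : ℝ) * |Real.sin (θ / 2)| ^ (-2 - 2 * (1 / 4) : ℝ) := by
      rw [B8, h1, ← Real.rpow_mul (abs_nonneg _)]
      congr 1
      · exact_mod_cast rfl
      · norm_num
    rw [h2]
    simp

/-- the affine image `v ↦ A H((v - u)/c)` -/
def aff (A c : ℝ) (u : E3) (H : E3 → ℝ) (v : E3) : ℝ := A * H (c⁻¹ • (v - u))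

theorem aff_apply {A c : ℝ} (hc : 0 < c) (u : E3) (H : E3 → ℝ) (W : E3) :
    aff A c u H (u + c • W) = A * H W := by
  simp [aff, smul_smul, inv_mul_cancel₀ hc.ne']

/-- the affine map `W ↦ u + c W` as a measurable equivalence -/
def affE (c : ℝ) (hc : 0 < c) (u : E3) : E3 ≃ᵐ E3 :=
  ((Homeomorph.smulOfNeZero c hc.ne').trans (Homeomorph.addLeft u)).toMeasurableEquiv

theorem affE_apply {c : ℝ} (hc : 0 < c) (u W : E3) : affE c hc u W = u + c • W := rfl

theorem map_affE {c : ℝ} (hc : 0 < c) (u : E3) :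
    Measure.map (affE c hc u) volume = ENNReal.ofReal (c ^ 3)⁻¹ • (volume : Measure E3) := by
  have h1 : (affE c hc u : E3 → E3) = (fun x => u + x) ∘ fun x => c • x := rfl
  rw [h1, ← Measure.map_map (measurable_const_add u) (measurable_const_smul c),
    Measure.map_addHaar_smul volume hc.ne', Measure.map_smul, map_add_left_eq_self]
  simp [abs_of_pos hc]

theorem integral_affE {c : ℝ} (hc : 0 < c) (u : E3) (φ : E3 → ℝ) :
    ∫ v, φ v = c ^ 3 * ∫ W, φ (u + c • W) := by
  have h := integral_map_equiv (μ := volume) (affE c hc u) φ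
  rw [map_affE, integral_smul_measure, ENNReal.toReal_ofReal (by positivity)] at h
  simp only [affE_apply, smul_eq_mul] at h
  rw [← h]
  field_simp

theorem integrable_affE {c : ℝ} (hc : 0 < c) (u : E3) {φ : E3 → ℝ}
    (h : Integrable fun W => φ (u + c • W)) : Integrable φ := by
  have h1 := (integrable_map_equiv (μ := volume) (affE c hc u) φ).2 h
  rw [map_affE] at h1
  refine (integrable_smul_measure ?_ ENNReal.ofReal_ne_top).1 h1
  simpa using pow_pos hc 3

theorem collInt_aff {A c : ℝ} (hc : 0 < c) (u : E3) (H : E3 → ℝ) (V W : E3) (σ : Sph) :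
    collInt B8 (aff A c u H) (u + c • V) (u + c • W, σ) =
      A ^ 2 * c ^ 8 * collInt B8 H V (W, σ) := by
  have h0 : u + c • V - (u + c • W) = c • (V - W) := by rw [smul_sub]; abel
  have hn : ‖u + c • V - (u + c • W)‖ = c * ‖V - W‖ := by
    rw [h0, norm_smul, Real.norm_of_nonneg hc.le]
  have h1 : vPost (u + c • V) (u + c • W) σ = u + c • vPost V W σ := by
    rw [vPost, vPost, hn]
    module
  have h2 : wPost (u + c • V) (u + c • W) σ = u + c • wPost V W σ := by
    rw [wPost, wPost, hn]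
    module
  have h3 : cosTh (u + c • V) (u + c • W) σ = cosTh V W σ := by
    rw [cosTh, cosTh, h1, h2, hn, h0]
    have : u + c • vPost V W σ - (u + c • wPost V W σ) = c • (vPost V W σ - wPost V W σ) := by
      rw [smul_sub]; abel
    rw [this, inner_smul_left, inner_smul_right, mul_pow]
    simp only [conj_trivial]
    rw [← mul_assoc, ← sq, mul_div_mul_left _ _ (by positivity)]
  simp only [collInt, h1, h2, h3, hn, aff_apply hc, B8]
  ring

theorem coll_aff {A c : ℝ} (hc : 0 < c) (u : E3) (H : E3 → ℝ) (V : E3)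
    (hi : Integrable (collInt B8 H V) collMeas) :
    Integrable (collInt B8 (aff A c u H) (u + c • V)) collMeas ∧
      Q B8 (aff A c u H) (u + c • V) = A ^ 2 * c ^ 11 * Q B8 H V := by
  set e : E3 × Sph ≃ᵐ E3 × Sph := (affE c hc u).prodCongr (MeasurableEquiv.refl Sph) with he
  have hm : Measure.map e collMeas = ENNReal.ofReal (c ^ 3)⁻¹ • collMeas := by
    have h1 : (e : E3 × Sph → E3 × Sph) = Prod.map (affE c hc u) id := rfl
    rw [h1, collMeas, ← Measure.map_prod_map _ _ (affE c hc u).measurable measurable_id,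
      map_affE, Measure.map_id, Measure.prod_smul_left]
  have hc' : collInt B8 (aff A c u H) (u + c • V) ∘ e =
      fun p => A ^ 2 * c ^ 8 * collInt B8 H V p := by
    funext p
    exact collInt_aff hc u H V p.1 p.2
  constructor
  · have h1 := (integrable_map_equiv (μ := collMeas) e
      (collInt B8 (aff A c u H) (u + c • V))).2 (by rw [hc']; exact hi.const_mul _)
    rw [hm] at h1
    refine (integrable_smul_measure ?_ ENNReal.ofReal_ne_top).1 h1
    simpa using pow_pos hc 3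
  · have h := integral_map_equiv (μ := collMeas) e (collInt B8 (aff A c u H) (u + c • V))
    rw [hm, integral_smul_measure, ENNReal.toReal_ofReal (by positivity)] at h
    have h2 : ∫ p, collInt B8 (aff A c u H) (u + c • V) (e p) ∂collMeas =
        A ^ 2 * c ^ 8 * Q B8 H V := by
      rw [Q, ← integral_const_mul]
      exact integral_congr_ae (Eventually.of_forall fun p => congrFun hc' p)
    rw [h2, smul_eq_mul] at h
    rw [Q]
    field_simp at h
    rw [h]
    ring

theorem integrable_pow_sqM (N : ℕ) : Integrable fun v : E3 => (1 + ‖v‖) ^ N * sqM v := by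
  have h1 : Integrable (fun v : E3 => (1 + ‖v‖) ^ (-(4 : ℝ))) :=
    integrable_one_add_norm (by simp; norm_num)
  refine (h1.const_mul (Real.exp ((N + 4 : ℕ) ^ 2))).mono' ?_ (Eventually.of_forall fun v => ?_)
  · exact (((continuous_const.add continuous_norm).pow N).mul continuous_sqM).aestronglyMeasurable
  · have h2 := pow_mul_sqM_le (N + 4) v
    have h3 : 0 < 1 + ‖v‖ := by positivity
    rw [Real.norm_of_nonneg (mul_nonneg (by positivity) (sqM_pos v).le), Real.rpow_neg h3.le,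
      ← div_eq_mul_inv, le_div_iff₀ (by positivity)]
    calc _ = (1 + ‖v‖) ^ (N + 4) * sqM v := by
          rw [show (4 : ℝ) = ((4 : ℕ) : ℝ) by norm_num, Real.rpow_natCast]; ring
      _ ≤ _ := h2

theorem integrable_sqM : Integrable sqM := by simpa using integrable_pow_sqM 0

/-- `∫ (1 + |V|)^2 sqM` -/
def I2 : ℝ := ∫ v : E3, (1 + ‖v‖) ^ 2 * sqM v

theorem I2_nonneg : 0 ≤ I2 :=
  integral_nonneg fun v => mul_nonneg (by positivity) (sqM_pos v).le

section Shape

variable {K c A : ℝ} {u : E3} {H : E3 → ℝ}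

theorem integrable_of_le (hH : Continuous H) (h0 : ∀ v, 0 ≤ H v) (h1 : ∀ v, H v ≤ K * sqM v)
    {φ : E3 → ℝ} (hφ : Continuous φ) {M : ℝ} {N : ℕ} (hM : ∀ v, |φ v| ≤ M * (1 + ‖v‖) ^ N) :
    Integrable fun v => H v * φ v := by
  refine ((integrable_pow_sqM N).const_mul (K * M)).mono' (hH.mul hφ).aestronglyMeasurable
    (Eventually.of_forall fun v => ?_)
  rw [norm_mul, Real.norm_of_nonneg (h0 v), Real.norm_eq_abs]
  calc _ ≤ (K * sqM v) * (M * (1 + ‖v‖) ^ N) :=
        mul_le_mul (h1 v) (hM v) (abs_nonneg _) ((h0 v).trans (h1 v))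
    _ = _ := by ring

theorem integrable_shape (hH : Continuous H) (h0 : ∀ v, 0 ≤ H v) (h1 : ∀ v, H v ≤ K * sqM v) :
    Integrable H := by
  simpa using integrable_of_le hH h0 h1 (φ := fun _ => 1) continuous_const (M := 1) (N := 0)
    (by simp)

theorem sq_aff_le (hc : 0 < c) (W : E3) :
    ‖u + c • W‖ ^ 2 ≤ (‖u‖ + c) ^ 2 * (1 + ‖W‖) ^ 2 := by
  rw [← mul_pow]
  refine pow_le_pow_left₀ (norm_nonneg _) ?_ 2
  have := norm_add_le u (c • W)
  rw [norm_smul, Real.norm_of_nonneg hc.le] at this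
  nlinarith [norm_nonneg u, norm_nonneg W, mul_nonneg (norm_nonneg u) (norm_nonneg W)]

theorem mass_aff (hc : 0 < c) : mass (aff A c u H) = A * c ^ 3 * ∫ W, H W := by
  rw [mass, integral_affE hc u]
  simp only [aff_apply hc, integral_const_mul]
  ring

theorem mass_aff_le (hc : 0 < c) (hA : 0 ≤ A) (hH : Continuous H) (h0 : ∀ v, 0 ≤ H v)
    (h1 : ∀ v, H v ≤ K * sqM v) : mass (aff A c u H) ≤ A * c ^ 3 * (K * I2) := by
  have hK : 0 ≤ K := nonneg_of_mul_nonneg_left ((h0 0).trans (h1 0)) (sqM_pos 0)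
  rw [mass_aff hc, I2, ← integral_const_mul K]
  refine mul_le_mul_of_nonneg_left (integral_mono (integrable_shape hH h0 h1)
    ((integrable_pow_sqM 2).const_mul K) fun v => (h1 v).trans ?_) (by positivity)
  refine mul_le_mul_of_nonneg_left (le_mul_of_one_le_left (sqM_pos v).le ?_) hK
  exact one_le_pow₀ (by simp)

theorem integrable_aff (hc : 0 < c) (hH : Continuous H) (h0 : ∀ v, 0 ≤ H v)
    (h1 : ∀ v, H v ≤ K * sqM v) : Integrable (aff A c u H) :=
  integrable_affE hc u (by simpa only [aff_apply hc] using (integrable_shape hH h0 h1).const_mul A)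

theorem integrable_aff_sq (hc : 0 < c) (hH : Continuous H) (h0 : ∀ v, 0 ≤ H v)
    (h1 : ∀ v, H v ≤ K * sqM v) : Integrable fun v => aff A c u H v * ‖v‖ ^ 2 := by
  refine integrable_affE hc u ?_
  simp only [aff_apply hc, mul_assoc]
  refine (integrable_of_le hH h0 h1 (by fun_prop) (M := (‖u‖ + c) ^ 2) (N := 2) fun W => ?_).const_mul A
  rw [abs_of_nonneg (by positivity)]
  exact sq_aff_le hc W

theorem energy_aff_le (hc : 0 < c) (hA : 0 ≤ A) (h0 : ∀ v, 0 ≤ H v)
    (h1 : ∀ v, H v ≤ K * sqM v) :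
    energy (aff A c u H) ≤ A * c ^ 3 * (‖u‖ + c) ^ 2 * (K * I2) := by
  rw [energy, integral_affE hc u]
  simp only [aff_apply hc]
  have h2 : ∫ W, A * H W * ‖u + c • W‖ ^ 2 ≤
      ∫ W, A * (‖u‖ + c) ^ 2 * K * ((1 + ‖W‖) ^ 2 * sqM W) := by
    refine integral_mono_of_nonneg (Eventually.of_forall fun W => ?_)
      ((integrable_pow_sqM 2).const_mul _) (Eventually.of_forall fun W => ?_)
    · exact mul_nonneg (mul_nonneg hA (h0 W)) (by positivity)
    · calc A * H W * ‖u + c • W‖ ^ 2 ≤ A * (K * sqM W) * ((‖u‖ + c) ^ 2 * (1 + ‖W‖) ^ 2) :=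
            mul_le_mul (mul_le_mul_of_nonneg_left (h1 W) hA) (sq_aff_le hc W) (by positivity)
              (mul_nonneg hA ((h0 W).trans (h1 W)))
        _ = _ := by ring
  rw [integral_const_mul] at h2
  calc _ ≤ c ^ 3 * (A * (‖u‖ + c) ^ 2 * K * I2) := mul_le_mul_of_nonneg_left h2 (by positivity)
    _ = _ := by ring

theorem aff_nonneg (hA : 0 ≤ A) (h0 : ∀ v, 0 ≤ H v) (v : E3) : 0 ≤ aff A c u H v :=
  mul_nonneg hA (h0 _)

theorem aff_le (hA : 0 ≤ A) (h0 : ∀ v, 0 ≤ H v) (h1 : ∀ v, H v ≤ K * sqM v) (v : E3) :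
    aff A c u H v ≤ A * K := by
  have hK : 0 ≤ K := nonneg_of_mul_nonneg_left ((h0 0).trans (h1 0)) (sqM_pos 0)
  exact mul_le_mul_of_nonneg_left ((h1 _).trans (mul_le_of_le_one_right hK (sqM_le_one _))) hA

/-- volume of the unit ball -/
def volB : ℝ := (volume (Metric.ball (0 : E3) 1)).toReal

theorem energy_aff_ge (hc : 0 < c) (hA : 0 ≤ A) (hH : Continuous H) (h0 : ∀ v, 0 ≤ H v)
    (h1 : ∀ v, H v ≤ K * sqM v) :
    mass (aff A c u H) - A * K * volB ≤ energy (aff A c u H) := by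
  have hi : Integrable ((Metric.ball (0 : E3) 1).indicator fun _ => A * K) :=
    (integrable_indicator_iff measurableSet_ball).2 (integrableOn_const measure_ball_lt_top.ne)
  have h2 : A * K * volB = ∫ v, (Metric.ball (0 : E3) 1).indicator (fun _ => A * K) v := by
    rw [integral_indicator measurableSet_ball, setIntegral_const, volB, smul_eq_mul, mul_comm]
    rfl
  rw [h2, mass, energy, ← integral_sub (integrable_aff hc hH h0 h1) hi]
  refine integral_mono ((integrable_aff hc hH h0 h1).sub hi) (integrable_aff_sq hc hH h0 h1)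
    fun v => ?_
  have h3 := aff_nonneg (c := c) (u := u) hA h0 v
  have h4 := aff_le (c := c) (u := u) hA h0 h1 v
  by_cases hv : v ∈ Metric.ball (0 : E3) 1
  · simp only [indicator_of_mem hv]
    nlinarith [mul_nonneg h3 (sq_nonneg ‖v‖)]
  · simp only [indicator_of_notMem hv, sub_zero]
    have : 1 ≤ ‖v‖ := by simpa using hv
    exact le_mul_of_one_le_right h3 (one_le_pow₀ this)

theorem aff_decay (hc : 0 < c) (hA : 0 ≤ A) (h0 : ∀ v, 0 ≤ H v) (h1 : ∀ v, H v ≤ K * sqM v)
    {M : ℝ} (hM : ‖u‖ + c ≤ M) (q : ℝ) (v : E3) :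
    aff A c u H v ≤ A * K * ((1 + M) ^ ⌈q⌉₊ * Real.exp (⌈q⌉₊ ^ 2)) * √(1 + ‖v‖ ^ 2) ^ (-q) := by
  have hK : 0 ≤ K := nonneg_of_mul_nonneg_left ((h0 0).trans (h1 0)) (sqM_pos 0)
  obtain ⟨W, rfl⟩ : ∃ W, v = u + c • W := ⟨c⁻¹ • (v - u), by simp [smul_smul, hc.ne']⟩
  set v := u + c • W with hv
  have hM0 : 0 ≤ M := le_trans (by positivity) hM
  have h2 : 1 ≤ √(1 + ‖v‖ ^ 2) := Real.one_le_sqrt.2 (by nlinarith [sq_nonneg ‖v‖])
  have h3 : √(1 + ‖v‖ ^ 2) ≤ (1 + M) * (1 + ‖W‖) := by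
    have h4 : ‖v‖ ≤ M * (1 + ‖W‖) := by
      refine abs_le_of_sq_le_sq' ?_ (by positivity) |>.2
      calc ‖v‖ ^ 2 ≤ (‖u‖ + c) ^ 2 * (1 + ‖W‖) ^ 2 := sq_aff_le hc W
        _ ≤ M ^ 2 * (1 + ‖W‖) ^ 2 := by gcongr
        _ = _ := by ring
    have h5 : √(1 + ‖v‖ ^ 2) ≤ 1 + ‖v‖ :=
      Real.sqrt_le_iff.2 ⟨by positivity, by nlinarith [norm_nonneg v]⟩
    nlinarith [norm_nonneg W]
  have h6 : √(1 + ‖v‖ ^ 2) ^ q ≤ (1 + M) ^ ⌈q⌉₊ * (1 + ‖W‖) ^ ⌈q⌉₊ := by
    calc _ ≤ √(1 + ‖v‖ ^ 2) ^ (⌈q⌉₊ : ℝ) := Real.rpow_le_rpow_of_exponent_le h2 (Nat.le_ceil q)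
      _ ≤ _ := by rw [Real.rpow_natCast, ← mul_pow]; gcongr
  rw [Real.rpow_neg (by positivity), ← div_eq_mul_inv, le_div_iff₀ (by positivity), hv,
    aff_apply hc, ← hv]
  calc A * H W * √(1 + ‖v‖ ^ 2) ^ q
      ≤ A * (K * sqM W) * ((1 + M) ^ ⌈q⌉₊ * (1 + ‖W‖) ^ ⌈q⌉₊) :=
        mul_le_mul (mul_le_mul_of_nonneg_left (h1 W) hA) h6 (by positivity)
          (mul_nonneg hA ((h0 W).trans (h1 W)))
    _ = A * K * ((1 + M) ^ ⌈q⌉₊ * ((1 + ‖W‖) ^ ⌈q⌉₊ * sqM W)) := by ring
    _ ≤ _ := by gcongr; exact pow_mul_sqM_le _ W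

theorem abs_mul_log_le {x M : ℝ} (h0 : 0 ≤ x) (h1 : x ≤ M) : |x * Real.log x| ≤ (2 + M ^ 2) * √x := by
  rcases h0.eq_or_lt with rfl | h0
  · simp
  have hs : 0 < √x := Real.sqrt_pos.2 h0
  have hx : x = √x * √x := (Real.mul_self_sqrt h0.le).symm
  have hl : Real.log x = 2 * Real.log √x := by rw [Real.log_sqrt h0.le]; ring
  have h2 : Real.log √x ≤ √x - 1 := Real.log_le_sub_one_of_pos hs
  have h3 : 1 - (√x)⁻¹ ≤ Real.log √x := Real.one_sub_inv_le_log_of_pos hs
  rw [abs_le, hl]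
  set y := √x
  have h4 : y * (1 - y⁻¹) = y - 1 := by field_simp
  have h5 : y - 1 ≤ y * Real.log y := h4 ▸ mul_le_mul_of_nonneg_left h3 hs.le
  constructor
  · rw [hx]
    nlinarith [mul_le_mul_of_nonneg_left h5 hs.le, sq_nonneg M, mul_pos hs hs,
      mul_nonneg (sq_nonneg M) hs.le]
  · have h6 : y * y ≤ M := hx ▸ h1
    have h7 : y * Real.log y ≤ y * y - y := by nlinarith [mul_le_mul_of_nonneg_left h2 hs.le]
    rw [hx]
    have h8 : 2 * (y * Real.log y) ≤ 2 + M ^ 2 := by nlinarith [sq_nonneg (M - 1)]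
    nlinarith [mul_le_mul_of_nonneg_left h8 hs.le]

theorem integrable_aff_log (hc : 0 < c) (hA : 0 ≤ A) (hH : Continuous H) (h0 : ∀ v, 0 ≤ H v)
    (h1 : ∀ v, H v ≤ K * sqM v) :
    Integrable fun v => aff A c u H v * Real.log (aff A c u H v) := by
  have hK : 0 ≤ K := nonneg_of_mul_nonneg_left ((h0 0).trans (h1 0)) (sqM_pos 0)
  refine integrable_affE hc u ?_
  simp only [aff_apply hc]
  have h2 : Integrable (fun v : E3 => (1 + ‖v‖) ^ (-(4 : ℝ))) :=
    integrable_one_add_norm (by simp; norm_num)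
  refine (h2.const_mul ((2 + (A * K) ^ 2) * √(A * K * Real.exp ((8 : ℕ) ^ 2)))).mono' ?_
    (Eventually.of_forall fun W => ?_)
  · exact (Real.continuous_mul_log.comp (continuous_const.mul hH)).aestronglyMeasurable
  · have h3 : A * H W ≤ A * K := by simpa only [aff_apply hc] using aff_le (c := c) (u := u) hA h0 h1 (u + c • W)
    rw [Real.norm_eq_abs, mul_assoc (2 + (A * K) ^ 2)]
    refine (abs_mul_log_le (mul_nonneg hA (h0 W)) h3).trans
      (mul_le_mul_of_nonneg_left ?_ (by positivity))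
    have h4 : 0 < 1 + ‖W‖ := by positivity
    rw [Real.rpow_neg h4.le, ← div_eq_mul_inv, le_div_iff₀ (by positivity),
      show (4 : ℝ) = ((4 : ℕ) : ℝ) by norm_num, Real.rpow_natCast,
      ← Real.sqrt_sq (show 0 ≤ (1 + ‖W‖) ^ 4 by positivity),
      ← Real.sqrt_mul (mul_nonneg hA (h0 W))]
    refine Real.sqrt_le_sqrt ?_
    calc A * H W * ((1 + ‖W‖) ^ 4) ^ 2 ≤ A * (K * sqM W) * ((1 + ‖W‖) ^ 4) ^ 2 := by
          gcongr; exact h1 W
      _ = A * K * ((1 + ‖W‖) ^ 8 * sqM W) := by ring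
      _ ≤ _ := by gcongr; exact pow_mul_sqM_le 8 W

theorem entropy_aff_le (hc : 0 < c) (hA : 0 ≤ A) (hH : Continuous H) (h0 : ∀ v, 0 ≤ H v)
    (h1 : ∀ v, H v ≤ K * sqM v) : entropy (aff A c u H) ≤ A * K * mass (aff A c u H) := by
  rw [entropy, mass, ← integral_const_mul]
  refine integral_mono (integrable_aff_log hc hA hH h0 h1)
    ((integrable_aff hc hH h0 h1).const_mul _) fun v => ?_
  have h3 := aff_nonneg (c := c) (u := u) hA h0 v
  have h4 := aff_le (c := c) (u := u) hA h0 h1 v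
  have h5 := Real.log_le_self h3
  simp only
  nlinarith

end Shape

/-- smallness threshold for the perturbation and lower bound for the mass -/
theorem exists_mass_lower : ∃ ε > (0 : ℝ), ∃ m > (0 : ℝ), ∀ G : E3 → ℝ, Continuous G →
    (∀ v, |G v - sqM v| ≤ ε) → m ≤ ∫ v, sqM v * G v := by
  have h1 : Integrable fun v => sqM v * sqM v :=
    integrable_sqM.mono' (continuous_sqM.mul continuous_sqM).aestronglyMeasurable
      (Eventually.of_forall fun v => by
        rw [Real.norm_of_nonneg (mul_self_nonneg _)]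
        exact mul_le_of_le_one_right (sqM_pos v).le (sqM_le_one v))
  have h2 : 0 < ∫ v, sqM v * sqM v :=
    integral_pos_of_integrable_nonneg_nonzero (x := 0) (continuous_sqM.mul continuous_sqM) h1
      (fun v => mul_self_nonneg _) (mul_pos (sqM_pos 0) (sqM_pos 0)).ne'
  have h3 : 0 < ∫ v, sqM v :=
    integral_pos_of_integrable_nonneg_nonzero (x := 0) continuous_sqM integrable_sqM
      (fun v => (sqM_pos v).le) (sqM_pos 0).ne'
  set a := ∫ v, sqM v * sqM v
  set b := ∫ v, sqM v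
  refine ⟨a / (2 * b), by positivity, a / 2, by positivity, fun G hG hε => ?_⟩
  have h4 : a / 2 = ∫ v, (sqM v * sqM v - a / (2 * b) * sqM v) := by
    rw [integral_sub h1 (integrable_sqM.const_mul _), integral_const_mul]
    change a / 2 = a - a / (2 * b) * b
    field_simp
    ring
  rw [h4]
  refine integral_mono (h1.sub (integrable_sqM.const_mul _)) ?_ fun v => ?_
  · refine (integrable_sqM.const_mul (1 + a / (2 * b))).mono'
      (continuous_sqM.mul hG).aestronglyMeasurable (Eventually.of_forall fun v => ?_)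
    rw [norm_mul, Real.norm_of_nonneg (sqM_pos v).le, mul_comm, Real.norm_eq_abs]
    refine mul_le_mul_of_nonneg_right ?_ (sqM_pos v).le
    have := abs_le.1 (hε v)
    rw [abs_le]
    constructor <;> linarith [sqM_pos v, sqM_le_one v]
  · have := (abs_le.1 (hε v)).1
    simp only
    nlinarith [sqM_pos v]

end Pool.Agent.MP_187b32_an.M6
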